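import Pool.Agent.R3B.StmtsB

/-!
# Squad R3B (MP_be01ff_an), row LPA: the Laplacian away from `0`
-/

set_option autoImplicit false

namespace Pool.Agent.R3B.H13

open Set Filter Topology MeasureTheory InnerProductSpace Laplacian
open scoped InnerProductSpace ENNReal
open Pool.Agent.BE01F Pool.Agent.R3B
open Pool.Agent.Helper72_Shell (hasFDerivAt_radial laplacian_div)

theorem der_prim {ℓ : ℝ} {c : ℝ → ℝ} (hc : ContinuousOn c (Icc 0 ℓ)) {r : ℝ} (hr : r ∈ Ioo 0 ℓ) :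
    HasDerivAt (fun x => ∫ ρ in (0 : ℝ)..x, c ρ) (c r) r := by
  have h1 : IntervalIntegrable c volume 0 r := by
    apply ContinuousOn.intervalIntegrable_of_Icc hr.1.le
    exact hc.mono fun x hx => ⟨hx.1, hx.2.trans hr.2.le⟩
  have hc' : ContinuousOn c (Ioo 0 ℓ) := hc.mono Ioo_subset_Icc_self
  exact intervalIntegral.integral_hasDerivAt_right h1
    (hc'.stronglyMeasurableAtFilter isOpen_Ioo r hr) (hc'.continuousAt (isOpen_Ioo.mem_nhds hr))

theorem cont_prim {ℓ : ℝ} {c : ℝ → ℝ} (hl : 0 < ℓ) (hc : ContinuousOn c (Icc 0 ℓ)) :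
    ContinuousOn (fun x => ∫ ρ in (0 : ℝ)..x, c ρ) (Icc 0 ℓ) := by
  have h1 : IntegrableOn c (uIcc 0 ℓ) := by
    rw [uIcc_of_le hl.le]
    exact hc.integrableOn_Icc
  have h2 := intervalIntegral.continuousOn_primitive_interval h1
  rwa [uIcc_of_le hl.le] at h2

theorem lpa (hgre : Pool.Agent.BEC.GreStmt) : LpaStmt := by
  intro ℓ f g c hl hc hf hg ψ hψ h0
  obtain ⟨hψs, hψc, hψt⟩ := hψ
  have hg1 : ∀ r ∈ Ioo 0 ℓ, HasDerivAt g (c r) r := by
    intro r hr
    have h1 := (der_prim hc hr).const_add (g 0)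
    refine h1.congr_of_eventuallyEq ?_
    filter_upwards [isOpen_Ioo.mem_nhds hr] with x hx
    exact hg x hx.1.le hx.2.le
  have hgc : ContinuousOn g (Icc 0 ℓ) := by
    have h1 : ContinuousOn (fun x => g 0 + ∫ ρ in (0 : ℝ)..x, c ρ) (Icc 0 ℓ) :=
      continuousOn_const.add (cont_prim hl hc)
    exact h1.congr fun x hx => hg x hx.1 hx.2
  have hf1 : ∀ r ∈ Ioo 0 ℓ, HasDerivAt f (g r) r := by
    intro r hr
    refine (der_prim hgc hr).congr_of_eventuallyEq ?_
    filter_upwards [isOpen_Ioo.mem_nhds hr] with x hx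
    exact hf x hx.1.le hx.2.le
  have hgd : ContDiffOn ℝ 1 g (Ioo 0 ℓ) := by
    rw [show (1 : WithTop ℕ∞) = 0 + 1 by norm_num, contDiffOn_succ_iff_deriv_of_isOpen isOpen_Ioo]
    refine ⟨fun r hr => (hg1 r hr).differentiableAt.differentiableWithinAt, by simp, ?_⟩
    rw [contDiffOn_zero]
    exact (hc.mono Ioo_subset_Icc_self).congr fun r hr => (hg1 r hr).deriv
  have hfd : ContDiffOn ℝ 2 f (Ioo 0 ℓ) := by
    rw [show (2 : WithTop ℕ∞) = 1 + 1 by norm_num, contDiffOn_succ_iff_deriv_of_isOpen isOpen_Ioo]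
    refine ⟨fun r hr => (hf1 r hr).differentiableAt.differentiableWithinAt, by simp, ?_⟩
    exact hgd.congr fun r hr => (hf1 r hr).deriv
  obtain ⟨V, hV⟩ : ∃ V : Set (E 3), V = {x | 0 < ‖x‖ ∧ ‖x‖ < ℓ} := ⟨_, rfl⟩
  have hVo : IsOpen V := by
    rw [hV]
    exact (isOpen_lt continuous_const continuous_norm).inter
      (isOpen_lt continuous_norm continuous_const)
  have hVm : ∀ x, x ∈ V → x ≠ 0 ∧ ‖x‖ ∈ Ioo 0 ℓ := by
    intro x hx
    rw [hV] at hx
    exact ⟨norm_pos_iff.1 hx.1, hx⟩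
  have hfV : ContDiffOn ℝ 2 (rf f) V := by
    have hn : ContDiffOn ℝ 2 (fun x : E 3 => ‖x‖) V := fun x hx =>
      (contDiffAt_norm ℝ (hVm x hx).1).contDiffWithinAt
    exact (hfd.comp hn fun x hx => (hVm x hx).2).div hn fun x hx => (hVm x hx).2.1.ne'
  have hsub : tsupport ψ ⊆ V := by
    intro x hx
    rw [hV]
    refine ⟨norm_pos_iff.2 ?_, hψt hx⟩
    rintro rfl
    exact h0 hx
  obtain ⟨hi1, hi2, hi3⟩ := hgre 3 V (rf f) ψ hVo hfV hψs hψc hsub
  have hgrad : ∀ x ∈ V, gradient (rf f) x = rg f g x := by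
    intro x hx
    obtain ⟨hx0, hxr⟩ := hVm x hx
    have h1 := (hf1 _ hxr).div (hasDerivAt_id ‖x‖) hxr.1.ne'
    have h2 := hasFDerivAt_radial (g := fun r => f r / r) hx0 h1
    have h3 : HasGradientAt (rf f) (rg f g x) x := by
      rw [hasGradientAt_iff_hasFDerivAt]
      have h4 : toDual ℝ (E 3) (rg f g x) =
          ((g ‖x‖ * id ‖x‖ - f ‖x‖ * 1) / id ‖x‖ ^ 2 / ‖x‖) • innerSL ℝ x := by
        ext y
        simp only [rg, toDual_apply_apply, inner_smul_left, smul_apply, innerSL_apply_apply,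
          id, smul_eq_mul, conj_trivial]
        have h5 : ‖x‖ ≠ 0 := hxr.1.ne'
        field_simp
      rw [h4]
      exact h2
    exact h3.gradient
  have hlap : ∀ x ∈ V, (Δ (rf f)) x = rf c x := by
    intro x hx
    obtain ⟨hx0, hxr⟩ := hVm x hx
    refine laplacian_div (F := f) (F1 := g) hx0 ?_ (hg1 _ hxr)
    filter_upwards [isOpen_Ioo.mem_nhds hxr] with r hr
    exact hf1 r hr
  have hψ0 : ∀ x, x ∉ tsupport ψ → ψ x = 0 := fun x hx => image_eq_zero_of_notMem_tsupport hx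
  have hψ1 : ∀ x, x ∉ tsupport ψ → gradient ψ x = 0 := by
    intro x hx
    have h1 : fderiv ℝ ψ x = 0 :=
      image_eq_zero_of_notMem_tsupport (fun h => hx (tsupport_fderiv_subset ℝ h))
    unfold gradient
    rw [h1, map_zero]
  have e1 : ∀ x, ⟪rg f g x, gradient ψ x⟫_ℝ = ⟪gradient (rf f) x, gradient ψ x⟫_ℝ := by
    intro x
    by_cases hx : x ∈ tsupport ψ
    · rw [hgrad x (hsub hx)]
    · rw [hψ1 x hx, inner_zero_right, inner_zero_right]
  have e2 : ∀ x, rf c x * ψ x = (Δ (rf f)) x * ψ x := by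
    intro x
    by_cases hx : x ∈ tsupport ψ
    · rw [hlap x (hsub hx)]
    · rw [hψ0 x hx, mul_zero, mul_zero]
  have e3 : intg (Bl ℓ) (fun x => ⟪rg f g x, gradient ψ x⟫_ℝ) =
      ∫ x, ⟪gradient (rf f) x, gradient ψ x⟫_ℝ := by
    unfold intg vol
    rw [setIntegral_eq_integral_of_forall_compl_eq_zero]
    · exact integral_congr_ae (Eventually.of_forall e1)
    · intro x hx
      rw [hψ1 x fun h => hx (hψt h), inner_zero_right]
  have e4 : intg (Bl ℓ) (fun x => rf c x * ψ x) = ∫ x, (Δ (rf f)) x * ψ x := by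
    unfold intg vol
    rw [setIntegral_eq_integral_of_forall_compl_eq_zero]
    · exact integral_congr_ae (Eventually.of_forall e2)
    · intro x hx
      rw [hψ0 x fun h => hx (hψt h), mul_zero]
  rw [integral_add hi1 hi2] at hi3
  rw [e3, e4]
  linarith

end Pool.Agent.R3B.H13
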